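import Pool.Agent.helper74.VDI.SpecB0
import Pool.Agent.helper98.VD.DTD

/-! Row vdi:DTDB of project INF (MP_07c750_an): the deterministic part for pairs of metrics (the proof of helper98/VD/DTD.lean). -/

set_option autoImplicit false

open scoped ContDiff Topology InnerProductSpace ENNReal ComplexConjugate
open MeasureTheory Filter Set

namespace Pool.Agent.VDI

open Pool.Agent.RPQ (PN PJ UN upd IsOp nst)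
open Pool.Agent.VQ (CH PS KZ perZ cmZ stZ wdZ InvS AdZ vz mZ wM qZ phZ rk)
open Pool.Agent.VN (aN)
open Pool.Agent.VD
open Pool.Agent.VDE (UWLD FDX)

noncomputable section

theorem DTDB_proof (hDTA : DTA_stmt) (hI2D : I2D_stmt) (hI3B : I3B_stmt) (hI4D : I4D_stmt) (hI8B : I8B_stmt) (hPSY : PSY_stmt) (hKZD : KZD_stmt)
    (hMTD : MTD_stmt) (hMVE : MVE_stmt) (hLEN : LEN_stmt) (hCTD : CTD_stmt) (hKSZ : VQ.KSZ_stmt) (hVLD : VLD_stmt) : DTDB_stmt := by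
  intro d Γ _ _ K F0 r0 χ0 ch k B B' bn hd hK hF hPU hch
  obtain ⟨C2, hC2, hI2⟩ := hI2D d Γ K r0 χ0 ch k B B' hd hK hPU hch
  obtain ⟨C3, hC3, hI3⟩ := hI3B d Γ K F0 r0 χ0 ch k B B' bn hd hK hF hPU hch
  obtain ⟨C4, rS, hC4, hI4⟩ := hI4D d Γ K r0 χ0 ch k B hd hK hPU hch
  obtain ⟨C8, hC8, hI8⟩ := hI8B d Γ K F0 r0 χ0 ch k B B' bn hd hK hF hPU hch
  obtain ⟨CV, hCV, hV⟩ := hVLD d Γ K k B r0
  obtain ⟨C, hC1, hCC2, hCC3, hCC4, hCC8⟩ : ∃ C : ℝ, 1 ≤ C ∧ C2 ≤ C ∧ C3 ≤ C ∧ C4 ≤ C ∧ C8 ≤ C :=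
    ⟨C2 + C3 + C4 + C8, by linarith, by linarith, by linarith, by linarith, by linarith⟩
  have hcnt : Countable Γ := hCTD d Γ K hK
  obtain ⟨Ln, hL1, hL2, hL3, hL4⟩ := hLEN Γ hcnt
  refine ⟨C, hC1, fun A h e b L n hA hh he hb hL hn => ?_⟩
  obtain ⟨d2, R2, hd2, hR2, hI2⟩ := hI2 A (DTD_adm hA hC2 hCC2)
  obtain ⟨d3, R3, hd3, hR3, hI3⟩ := hI3 A (DTD_adm hA hC3 hCC3)
  obtain ⟨d4, R4, hd4, hR4, hI4⟩ := hI4 A (DTD_adm hA hC4 hCC4)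
  obtain ⟨d8, R8, hd8, hR8, hI8⟩ := hI8 A h (DTD_adm hA hC8 hCC8) hh
  obtain ⟨δD, hδD, hδD1, hDT⟩ := hDTA e b L n he hb hL hn
  obtain ⟨T2, hT2⟩ := DTD_small d2 δD hd2 hδD
  obtain ⟨T3, hT3⟩ := DTD_small d3 δD hd3 hδD
  obtain ⟨T8, hT8⟩ := DTD_small d8 δD hd8 hδD
  obtain ⟨R0, q0, q2, q3, q4, q8, t2, t3, t8⟩ : ∃ R0 : ℝ, 1 ≤ R0 ∧ R2 ≤ R0 ∧ R3 ≤ R0 ∧ R4 ≤ R0 ∧ R8 ≤ R0 ∧ T2 ≤ R0 ∧ T3 ≤ R0 ∧ T8 ≤ R0 := by
    refine ⟨1 + |R2| + |R3| + |R4| + |R8| + |T2| + |T3| + |T8|, ?_, ?_, ?_, ?_, ?_, ?_, ?_, ?_⟩ <;>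
    linarith [abs_nonneg R2, abs_nonneg R3, abs_nonneg R4, abs_nonneg R8, abs_nonneg T2, abs_nonneg T3, abs_nonneg T8,
      le_abs_self R2, le_abs_self R3, le_abs_self R4, le_abs_self R8, le_abs_self T2, le_abs_self T3, le_abs_self T8]
  refine ⟨δD, R0, hδD, q0, ?_⟩
  intro R G G' Φ f f' μ φ hR hG hflow hE hWd
  have hR1 : 1 ≤ R := q0.trans hR
  have hΦc : Continuous fun q : ℝ × P d => Φ q.1 q.2 := hflow.smooth.continuous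
  have hnn0 : 0 ≤ nn G F0 φ := integral_nonneg fun z => by positivity
  have htu : 0 < A.tu R := by
    unfold Par.tu
    positivity
  -- measurability
  obtain ⟨m1, -, -, mm, -, -, -, -, mW2⟩ := hMTD d Γ G Φ F0 f r0 R (A.tu R) e 2 hG.met hflow hE.sm.smooth.continuous
  obtain ⟨-, m2, -, -, m3, m4, m5, m6, -⟩ := hMTD d Γ G Φ F0 h r0 R (A.tu R) e 1 hG.met hflow hh.smooth.continuous
  have hWvol : volume {p : P d | ‖p.1‖ ≤ r0 ∧ |Ep G p| ≤ 2 * R ^ (-(1 / 4) : ℝ)} < ⊤ := lt_of_le_of_lt (hV G R hR1 hG) ENNReal.ofReal_lt_top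
  have hPS : PS Γ (YS Γ d) (mW Γ G r0 R) (DT d {(1 : Γ)}) (dYS Ln) :=
    (hPSY d Γ {p : P d | ‖p.1‖ ≤ r0 ∧ |Ep G p| ≤ 2 * R ^ (-(1 / 4) : ℝ)} Ln hcnt mW2 hWvol hL1 hL2 hL3 hL4).1
  have hθ : Measurable fun y : YS Γ d => -thP Φ f R (A.tu R) y.2 := (mm _ m1).neg
  have hKZ : KZ Γ (dYS Ln) (KB (Γ := Γ) G Φ r0 χ0 ch A R f) := by
    rw [DTD_KB]
    exact (hKSZ Γ (YS Γ d) (mW Γ G r0 R) (DT d {(1 : Γ)}) (dYS Ln) hPS).1 _ _ hθ (fun γ y => rfl) (hKZD d Γ Ln _ (hI4 R G Φ (q4.trans hR) hG hflow).1)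
  obtain ⟨i1, i2, i3, i4⟩ := hI3 R G G' Φ f f' μ φ (q3.trans hR) hG hflow hE
  have hmn := (hMVE d G hG.met).2.2.2.2 F0 h hF.meas hh.bd
  have hs3 := hT3 R (t3.trans hR)
  refine hDT Γ (YS Γ d) (mW Γ G r0 R) (DT d {(1 : Γ)}) (dYS Ln) hPS (KB G Φ r0 χ0 ch A R f) (QF G χ0 ch A.z R φ) (fun y => avP Φ h (A.tu R) y.2)
    (GW Γ G r0 1 R) (SBD Γ G Φ r0 F0 h e (A.tu R) R) (nn G F0 φ) (mean G F0 h) (∫ x in F0, h x * ‖φ x‖ ^ 2 ∂mv G)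
    hKZ i1 (mm _ m2) m3 (m4.inter m3) ?_ hnn0 hmn.1 hmn.2 (fun y => DTD_av htu hh.smooth.continuous hh.bd hΦc y.2) (fun y hy hye => ⟨hye, hy⟩) ?_ ?_ ?_ hWd ?_
  · intro γ y
    show (γ • y ∈ BadP Γ G Φ F0 h e (A.tu R) ∧ γ • y ∈ GW Γ G r0 1 R) ↔ (y ∈ BadP Γ G Φ F0 h e (A.tu R) ∧ y ∈ GW Γ G r0 1 R)
    rw [m6 γ y, m5 γ y]
  · refine i2.trans (ENNReal.ofReal_le_ofReal (mul_le_mul_of_nonneg_right (by linarith) hnn0))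
  · exact (ENNReal.ofReal_le_ofReal (mul_le_mul_of_nonneg_right (by linarith) hnn0)).trans i3
  · intro T hT
    refine ⟨?_, fun Ψ hΨ => ?_⟩
    · have := hI2 R G Φ f (q2.trans hR) hG hflow hE.sm T hT
      have := hT2 R (t2.trans hR)
      linarith
    · exact (i4 T hT Ψ hΨ).trans (mul_le_mul_of_nonneg_right hs3 hnn0)
  · exact (hI8 R G G' Φ f f' μ φ (q8.trans hR) hG hflow hE).trans (mul_le_mul_of_nonneg_right (hT8 R (t8.trans hR)) hnn0)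

end

end Pool.Agent.VDI
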